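import Mathlib
import Pool.Agent.Helper270.QD
import Pool.Agent.TH105.QFC

set_option autoImplicit false
set_option linter.unusedSectionVars false

/-!
Finite quotients of `Q(n,m)`: reduction of the affine action modulo primes `ℓ ≡ 1 (mod p)`.
-/

namespace Pool.Agent.TH105.QF

open H270Q

section fin
variable {G : Type*} [Group G] {K : Type*} [Field K] {n : ℕ}

/-- precomposition action of the automorphism group on homomorphisms -/
def preAct (n : ℕ) (P : Type*) [Group P] :
    MulAut (FreeGroup (Fin n)) →* Equiv.Perm (FreeGroup (Fin n) →* P) where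
  toFun α :=
    { toFun := fun ψ => ψ.comp (α⁻¹ : MulAut (FreeGroup (Fin n))).toMonoidHom
      invFun := fun ψ => ψ.comp α.toMonoidHom
      left_inv := by
        intro ψ
        apply MonoidHom.ext
        intro x
        change ψ ((α⁻¹ : MulAut (FreeGroup (Fin n))) (α x)) = ψ x
        simp
      right_inv := by
        intro ψ
        apply MonoidHom.ext
        intro x
        change ψ (α ((α⁻¹ : MulAut (FreeGroup (Fin n))) x)) = ψ x
        simp }
  map_one' := by
    apply Equiv.ext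
    intro ψ
    apply MonoidHom.ext
    intro x
    change ψ ((1⁻¹ : MulAut (FreeGroup (Fin n))) x) = ψ x
    simp
  map_mul' := by
    intro α β
    apply Equiv.ext
    intro ψ
    apply MonoidHom.ext
    intro x
    change ψ (((α * β)⁻¹ : MulAut (FreeGroup (Fin n))) x) =
      ψ ((β⁻¹ : MulAut (FreeGroup (Fin n))) ((α⁻¹ : MulAut (FreeGroup (Fin n))) x))
    rw [mul_inv_rev]
    rfl

theorem preAct_apply (P : Type*) [Group P] (α : MulAut (FreeGroup (Fin n)))
    (ψ : FreeGroup (Fin n) →* P) (x : FreeGroup (Fin n)) :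
    preAct n P α ψ x = ψ ((α⁻¹ : MulAut (FreeGroup (Fin n))) x) := rfl

theorem finite_hom (P : Type*) [Group P] [Finite P] : Finite (FreeGroup (Fin n) →* P) :=
  Finite.of_equiv _ (FreeGroup.lift (α := Fin n) (β := P))

theorem Krho_finiteIndex [Finite G] [Finite K] (hn : 2 ≤ n) (c : G) (ω : K) (p : ℕ)
    (μ : FreeGroup (Fin n) →* G) : (Krho hn μ c ω p).FiniteIndex := by
  have : Finite (G → K) := inferInstance
  have : Finite (Equiv.Perm (G → K)) := inferInstance
  have : Finite (FreeGroup (Fin n) →* Equiv.Perm (G → K)) := finite_hom _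
  have : Finite (Equiv.Perm (FreeGroup (Fin n) →* Equiv.Perm (G → K))) := inferInstance
  have hker : (preAct n (Equiv.Perm (G → K))).ker.FiniteIndex := Subgroup.finiteIndex_ker _
  refine Subgroup.finiteIndex_of_le (H := (preAct n (Equiv.Perm (G → K))).ker) ?_
  intro α hα β x f _
  rw [MonoidHom.mem_ker] at hα
  have h1 : preAct n (Equiv.Perm (G → K)) α ((rho hn c ω p μ).comp β.toMonoidHom) =
      (rho hn c ω p μ).comp β.toMonoidHom := by rw [hα]; rfl
  have h2 := DFunLike.congr_fun h1 (α x)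
  rw [preAct_apply] at h2
  have h3 : (α⁻¹ : MulAut (FreeGroup (Fin n))) (α x) = x := by simp
  rw [h3] at h2
  have h4 : rho hn c ω p μ (β x) = rho hn c ω p μ (β (α x)) := h2
  rw [h4]

end fin

/-- finite data -/
theorem exists_data (p k n : ℕ) (hp : p.Prime) (hnk : n ≤ p ^ k) :
    ∃ (G : Type) (_ : Group G) (_ : Finite G) (c : G) (μ : FreeGroup (Fin n) →* G),
      (∀ g, c * g = g * c) ∧ c ^ p = 1 ∧ c ≠ 1 ∧
      ∀ g, ab n p g ≠ 1 → ∃ s : ℕ, ¬ p ∣ s ∧ μ g ^ (p ^ k) = c ^ s := by
  have : Fact p.Prime := ⟨hp⟩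
  have hfr : Module.finrank (ZMod p) (KK p k) = p ^ k := GaloisField.finrank p (dpos p k).ne'
  let bs : Module.Basis (Fin (p ^ k)) (ZMod p) (KK p k) := Module.finBasisOfFinrankEq _ _ hfr
  let x : Fin n → KK p k := fun i => bs (Fin.castLE hnk i)
  have hli : LinearIndependent (ZMod p) x :=
    bs.linearIndependent.comp _ (Fin.castLE_injective hnk)
  have hell : ∀ v : Fin n → ZMod p, v ≠ 0 → ell x v ≠ 0 := by
    intro v hv h
    apply hv
    funext i
    exact Fintype.linearIndependent_iff.1 hli v h i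
  let G : Subgroup (MM p k)ˣ := Subgroup.centralizer {c0 p k}
  have hG : ∀ w, mu0 x w ∈ G := by
    intro w
    rw [Subgroup.mem_centralizer_iff]
    intro h hh
    rw [Set.mem_singleton_iff] at hh
    rw [hh]
    exact mu0_comm x w
  have hcG : c0 p k ∈ G := by
    rw [Subgroup.mem_centralizer_iff]
    intro h hh
    rw [Set.mem_singleton_iff] at hh
    rw [hh]
  let μ : FreeGroup (Fin n) →* G := (mu0 x).codRestrict G hG
  let c : G := ⟨c0 p k, hcG⟩
  have hc : ∀ g : G, c * g = g * c := by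
    intro g
    apply Subtype.ext
    exact Subgroup.mem_centralizer_iff.1 g.2 _ (Set.mem_singleton _)
  have hcp : c ^ p = 1 := by
    apply Subtype.ext
    apply Units.ext
    change ((c0 p k ^ p : (MM p k)ˣ) : MM p k) = 1
    rw [c0_pow, CharP.cast_eq_zero]
    have : corner (p ^ k) (KK p k) (0 : KK p k) = 0 := by ext i j; simp [corner]
    rw [this, add_zero]
  have hc1 : c ≠ 1 := by
    intro h
    have h1 : c0 p k = 1 := congrArg Subtype.val h
    have h2 : (1 : MM p k) + corner (p ^ k) (KK p k) 1 = 1 := by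
      rw [← c0_val, h1]; rfl
    have h3 : corner (p ^ k) (KK p k) 1 = corner (p ^ k) (KK p k) 0 := by
      have : corner (p ^ k) (KK p k) (0 : KK p k) = 0 := by ext i j; simp [corner]
      rw [this]
      simpa using h2
    exact one_ne_zero (corner_injective h3)
  have hfin : Finite G := by
    have h1 : Finite (KK p k) := inferInstance
    have h2 : Finite (MM p k) := inferInstance
    have h3 : Finite (MM p k)ˣ := inferInstance
    infer_instance
  refine ⟨G, inferInstance, hfin, c, μ, hc, hcp, hc1, ?_⟩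
  intro g hg
  obtain ⟨s, hs, e⟩ := mu0_pow x g hfr (hell _ (fun h => hg (by
    apply Multiplicative.toAdd.injective
    rw [h]; rfl)))
  refine ⟨s, hs, ?_⟩
  apply Subtype.ext
  exact e

/-- `Q(n,m)` has infinitely many normal subgroups of finite index when `p^(k+1) ∣ m` for a prime
power `p^k ≥ n`. -/
theorem infinite_quotients (p k n m : ℕ) (hp : p.Prime) (hn : 2 ≤ n) (hnk : n ≤ p ^ k)
    (hm : p ^ (k + 1) ∣ m) :
    Set.Infinite {N : Subgroup (Q n m hn) | N.Normal ∧ N.FiniteIndex} := by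
  have hpF : Fact p.Prime := ⟨hp⟩
  obtain ⟨G, _, _, c, μ, hc, hcp, hc1, H⟩ := exists_data p k n hp hnk
  intro hfin
  set x : Q n m hn := QuotientGroup.mk (MulAut.conj (ww n hn p k)) with hx
  -- bound on the indices
  have hbound : ∃ B : ℕ, ∀ N : Subgroup (Q n m hn), N.Normal → N.FiniteIndex → N.index ≤ B := by
    obtain ⟨B, hB⟩ := (hfin.image (fun N : Subgroup (Q n m hn) => N.index)).bddAbove
    refine ⟨B, fun N h1 h2 => hB ⟨N, ⟨h1, h2⟩, rfl⟩⟩
  obtain ⟨B, hB⟩ := hbound
  obtain ⟨ℓ, hℓ, hBℓ, hmod⟩ := Nat.exists_prime_gt_modEq_one (k := p) B hp.ne_zero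
  have hℓF : Fact ℓ.Prime := ⟨hℓ⟩
  -- a primitive root of unity
  obtain ⟨ω, hω⟩ : ∃ ω : ZMod ℓ, IsPrimitiveRoot ω p := by
    have hcard : p ∣ Nat.card (ZMod ℓ)ˣ := by
      rw [Nat.card_eq_fintype_card, ZMod.card_units_eq_totient, Nat.totient_prime hℓ]
      exact (Nat.modEq_iff_dvd' hℓ.one_lt.le).1 hmod.symm
    obtain ⟨u, hu⟩ := exists_prime_orderOf_dvd_card' p hcard
    refine ⟨(u : ZMod ℓ), ?_⟩
    have h1 : IsPrimitiveRoot u p := by
      rw [← hu]; exact IsPrimitiveRoot.orderOf u
    exact h1.map_of_injective (f := Units.coeHom (ZMod ℓ)) Units.val_injective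
  have hKn : (Krho hn μ c ω p).Normal := Krho_normal hn c ω p μ
  have hKf : (Krho hn μ c ω p).FiniteIndex := Krho_finiteIndex hn c ω p μ
  have hle : Subgroup.normalClosure {(nielsen n hn) ^ m} ≤ Krho hn μ c ω p := by
    apply Subgroup.normalClosure_le_normal
    intro y hy
    rw [Set.mem_singleton_iff] at hy
    rw [hy]
    exact nielsen_mem hn μ hc hcp hω H hm
  set N : Subgroup (Q n m hn) := (Krho hn μ c ω p).map
    (QuotientGroup.mk' (Subgroup.normalClosure {(nielsen n hn) ^ m})) with hN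
  have hNn : N.Normal := hKn.map _ (QuotientGroup.mk'_surjective _)
  have hcomap : N.comap (QuotientGroup.mk' (Subgroup.normalClosure {(nielsen n hn) ^ m})) =
      Krho hn μ c ω p := by
    rw [hN, Subgroup.comap_map_eq, QuotientGroup.ker_mk']
    exact sup_eq_left.2 hle
  have hidx : N.index = (Krho hn μ c ω p).index := by
    rw [← hcomap, Subgroup.index_comap_of_surjective _ (QuotientGroup.mk'_surjective _)]
  have hNf : N.FiniteIndex := ⟨by rw [hidx]; exact hKf.index_ne_zero⟩
  have h1 : N.index ≤ B := hB N hNn hNf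
  have h2 : x ^ N.index ∈ N := Subgroup.pow_index_mem N x
  have h3 : MulAut.conj (ww n hn p k ^ N.index) ∈ Krho hn μ c ω p := by
    rw [← hcomap, Subgroup.mem_comap, map_pow]
    exact h2
  have h4 : ((N.index : ℕ) : ZMod ℓ) = 0 :=
    ww_pow_mem hn μ hc hcp hc1 hω H N.index h3
  have h5 : ℓ ∣ N.index := (ZMod.natCast_eq_zero_iff _ _).1 h4
  have h6 : ℓ ≤ N.index := Nat.le_of_dvd (Nat.pos_of_ne_zero hNf.index_ne_zero) h5
  omega

end Pool.Agent.TH105.QF
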